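import Pool.Agent.L7h28.HF.Nsg

set_option autoImplicit false

open Real Polynomial

namespace Pool.Agent.L7h28.HF

theorem G_zero (a : ℝ) (b c : ℕ → ℝ) (θ : ℝ) : G a b c θ 0 = frm 8 c θ := by
  unfold G
  norm_num

theorem frm_ne {a : ℝ} {b c : ℕ → ℝ} (ns : NS a b c) : ∃ θ, frm 8 c θ ≠ 0 := by
  by_contra hcon
  push Not at hcon
  refine ns 0 0 (by rw [G_zero]; exact hcon 0) ?_ ?_
  · simp only [G_zero, hcon]
    exact hasDerivAt_const _ _
  · have h1 : HasDerivAt (fun x : ℝ => a * x ^ 8) (a * ((8 : ℕ) * (0 : ℝ) ^ (8 - 1))) 0 :=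
      (hasDerivAt_pow 8 (0 : ℝ)).const_mul a
    have h2 : HasDerivAt (fun x : ℝ => frm 4 b 0 * x ^ 4)
        (frm 4 b 0 * ((4 : ℕ) * (0 : ℝ) ^ (4 - 1))) 0 :=
      (hasDerivAt_pow 4 (0 : ℝ)).const_mul _
    have h3 := (h1.add h2).add_const (frm 8 c 0)
    have h4 : a * ((8 : ℕ) * (0 : ℝ) ^ (8 - 1)) + frm 4 b 0 * ((4 : ℕ) * (0 : ℝ) ^ (4 - 1)) = 0 := by
      norm_num
    rw [h4] at h3
    exact h3

theorem shift {P : Set (ℝ × ℝ)} (h : ∀ θ τ, (θ, τ) ∈ P → (θ + π, -τ) ∈ P ∧ (θ - π, -τ) ∈ P)
    (θ : ℝ) (h0 : (θ, (0 : ℝ)) ∈ P) (n : ℤ) : (θ + n * π, (0 : ℝ)) ∈ P := by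
  induction n using Int.induction_on with
  | zero => simpa using h0
  | succ i hi =>
    have := (h _ _ hi).1
    rw [neg_zero] at this
    convert this using 2
    push_cast
    ring
  | pred i hi =>
    have := (h _ _ hi).2
    rw [neg_zero] at this
    convert this using 2
    push_cast
    ring

theorem s_MAIN (hE : S_EXT) (hC : S_CNT) (hO : S_OPN) (hP : S_POL) (hZ : S_ZER) (hD : S_DSC) :
    S_MAIN := by
  classical
  intro k F a b c hF hN h4 hs
  obtain ⟨C, h1, h2, h3, h4', h5⟩ := hs
  have hS : Spl k F C := ⟨h1, h2, h3, h4', h5⟩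
  obtain ⟨hPc, hdis, hper, hpt⟩ := hP k F C a b c h4 hS
  have ns : NS a b c := s_NSG F a b c hF hN h4
  have ha := h4.1
  have hπ := Real.pi_pos
  by_cases hneg : ∃ α, dsc a b c α < 0
  · obtain ⟨α, hα⟩ := hneg
    have per : ∀ θ, dsc a b c (θ + π) = dsc a b c θ := by
      intro θ
      unfold dsc
      rw [hD.2.1, hD.2.2]
    let S1 : Finset (Fin k) := Finset.univ.filter
      (fun i => ∃ p ∈ pol (C i), α ≤ p.1 ∧ p.1 ≤ α + π ∧ 0 ≤ p.2)
    have c1 : S1.card ≤ 8 := by
      refine (hC a b c α S1.card (fun i => pol (C (S1.equivFin.symm i).1)) ha ns hα ?_ ?_ ?_).1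
      · intro i
        exact hPc _
      · intro i j p hi hj
        exact S1.equivFin.symm.injective (Subtype.ext (hdis _ _ p hi hj))
      · intro i
        exact hE a b c _ α ha ns (hPc _) hα (by rw [per]; exact hα)
          (Finset.mem_filter.1 (S1.equivFin.symm i).2).2
    have c2 : S1ᶜ.card ≤ 4 := by
      have hout : ∀ i : Fin k, i ∈ S1ᶜ →
          ¬ ∃ p ∈ pol (C i), α ≤ p.1 ∧ p.1 ≤ α + π ∧ 0 ≤ p.2 := by
        intro i hi hcon
        exact (Finset.mem_compl.1 hi) (Finset.mem_filter.2 ⟨Finset.mem_univ _, hcon⟩)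
      refine (hC a b c (α + π) S1ᶜ.card (fun i => pol (C (S1ᶜ.equivFin.symm i).1)) ha ns
        (by rw [per]; exact hα) ?_ ?_ ?_).2 ?_
      · intro i
        exact hPc _
      · intro i j p hi hj
        exact S1ᶜ.equivFin.symm.injective (Subtype.ext (hdis _ _ p hi hj))
      · intro i
        refine hE a b c _ (α + π) ha ns (hPc _) (by rw [per]; exact hα)
          (by rw [per, per]; exact hα) ?_
        obtain ⟨θ, τ, g1, g2, g3, g4⟩ := hpt (S1ᶜ.equivFin.symm i).1 α
        refine ⟨(θ, τ), g4, ?_, ?_, g3⟩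
        · by_contra hlt
          exact hout _ (S1ᶜ.equivFin.symm i).2 ⟨(θ, τ), g4, g1, (not_le.1 hlt).le, g3⟩
        · change θ ≤ α + π + π
          linarith
      · intro i θ g1 g2 g3
        have g4 := (hper _ _ _ g3).2
        rw [neg_zero] at g4
        exact hout _ (S1ᶜ.equivFin.symm i).2 ⟨(θ - π, 0), g4, by
          change α ≤ θ - π; linarith, by change θ - π ≤ α + π; linarith, le_refl _⟩
    have hk : S1.card + S1ᶜ.card = k := by
      rw [Finset.card_add_card_compl, Fintype.card_fin]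
    omega
  · push Not at hneg
    let S0 : Finset (Fin k) := Finset.univ.filter (fun i => ∃ θ : ℝ, (θ, (0 : ℝ)) ∈ pol (C i))
    have c1 : S0.card ≤ 8 := by
      have hch : ∀ i : Fin k, ∃ θ : ℝ, i ∈ S0 →
          0 ≤ θ ∧ θ < 0 + π ∧ (θ, (0 : ℝ)) ∈ pol (C i) := by
        intro i
        by_cases hi : i ∈ S0
        · obtain ⟨θ, hθ⟩ := (Finset.mem_filter.1 hi).2
          have g := shift (hper i) θ hθ (-⌊θ / π⌋)
          refine ⟨_, fun _ => ⟨?_, ?_, g⟩⟩
          · have h6 := Int.floor_le (θ / π)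
            have h7 : (⌊θ / π⌋ : ℝ) * π ≤ θ := by
              calc (⌊θ / π⌋ : ℝ) * π ≤ θ / π * π := mul_le_mul_of_nonneg_right h6 hπ.le
                _ = θ := by field_simp
            push_cast
            linarith
          · have h6 := Int.lt_floor_add_one (θ / π)
            have h7 : θ < ((⌊θ / π⌋ : ℝ) + 1) * π := by
              calc θ = θ / π * π := by field_simp
                _ < ((⌊θ / π⌋ : ℝ) + 1) * π := mul_lt_mul_of_pos_right h6 hπ
            push_cast
            linarith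
        · exact ⟨0, fun h => absurd h hi⟩
      choose t ht using hch
      have himg : (S0.image t).card = S0.card := by
        apply Finset.card_image_of_injOn
        intro i hi j hj hij
        have g1 := (ht i hi).2.2
        have g2 := (ht j hj).2.2
        rw [← hij] at g2
        exact hdis i j _ g1 g2
      rw [← himg]
      apply hZ c 0 (frm_ne ns)
      intro θ hθ
      obtain ⟨i, hi, rfl⟩ := Finset.mem_image.1 hθ
      obtain ⟨g1, g2, g3⟩ := ht i hi
      refine ⟨g1, g2, ?_⟩
      have := (hPc i).sub _ g3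
      rwa [G_zero] at this
    have c2 : S0ᶜ.card ≤ 2 := by
      have hout : ∀ i : Fin k, i ∈ S0ᶜ → ∀ θ : ℝ, (θ, (0 : ℝ)) ∉ pol (C i) := by
        intro i hi θ hcon
        exact (Finset.mem_compl.1 hi) (Finset.mem_filter.2 ⟨Finset.mem_univ _, ⟨θ, hcon⟩⟩)
      have hch : ∀ i : Fin k, ∃ τ : ℝ, i ∈ S0ᶜ → 0 < τ ∧ ((0 : ℝ), τ) ∈ pol (C i) := by
        intro i
        by_cases hi : i ∈ S0ᶜ
        · obtain ⟨θ, τ, g1, g2, g3, g4⟩ := hpt i 0
          have hpos : 0 < τ := by
            rcases g3.lt_or_eq with h | h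
            · exact h
            · rw [← h] at g4
              exact absurd g4 (hout i hi θ)
          obtain ⟨τ', h6, h7⟩ := hO a b c (pol (C i)) ha ns (hPc i) hneg (hout i hi)
            ⟨(θ, τ), g4, hpos⟩ 0
          exact ⟨τ', fun _ => ⟨h6, h7⟩⟩
        · exact ⟨0, fun h => absurd h hi⟩
      choose t ht using hch
      let p : ℝ[X] := Polynomial.C a * X ^ 2 + Polynomial.C (frm 4 b 0) * X + Polynomial.C (frm 8 c 0)
      have hdeg : p.natDegree ≤ 2 := by
        apply Polynomial.natDegree_quadratic_le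
      have hp0 : p ≠ 0 := by
        intro h0
        have : p.coeff 2 = a := by
          simp only [p]
          simp [Polynomial.coeff_X, Polynomial.coeff_C]
        rw [h0] at this
        exact ha (by simpa using this.symm)
      have himg : (S0ᶜ.image (fun i => t i ^ 4)).card = S0ᶜ.card := by
        apply Finset.card_image_of_injOn
        intro i hi j hj hij
        have g1 := ht i hi
        have g2 := ht j hj
        have h6 : t i = t j := by
          exact (pow_left_inj₀ g1.1.le g2.1.le (by norm_num)).1 hij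
        rw [← h6] at g2
        exact hdis i j _ g1.2 g2.2
      rw [← himg]
      refine le_trans ?_ hdeg
      refine le_trans ?_ (Polynomial.card_roots' p)
      refine le_trans (Finset.card_le_card (t := p.roots.toFinset) ?_) (Multiset.toFinset_card_le _)
      intro y hy
      obtain ⟨i, hi, rfl⟩ := Finset.mem_image.1 hy
      rw [Multiset.mem_toFinset, Polynomial.mem_roots hp0]
      have h6 := (hPc i).sub _ (ht i hi).2
      unfold G at h6
      simp only [p, Polynomial.IsRoot, Polynomial.eval_add, Polynomial.eval_mul,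
        Polynomial.eval_C, Polynomial.eval_pow, Polynomial.eval_X]
      simp only at h6
      linarith [h6, show (t i ^ 4) ^ 2 = t i ^ 8 by ring]
    have hk : S0.card + S0ᶜ.card = k := by
      rw [Finset.card_add_card_compl, Fintype.card_fin]
    omega

end Pool.Agent.L7h28.HF
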