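import Pool.Agent.L7h28.HF.Stm
import Pool.Agent.L7h60.OC.Nsp

set_option autoImplicit false

namespace Pool.Agent.L7h28.HF

theorem eval_pol {F : MvPolynomial (Fin 3) ℝ} {a : ℝ} {b c : ℕ → ℝ} (h : Q4 F a b c) (θ τ : ℝ) :
    MvPolynomial.eval ![Real.cos θ, Real.sin θ, τ] F = G a b c θ τ := by
  rw [h.2]
  unfold G frm
  rfl

theorem s_NSG : S_NSG := by
  intro F a b c hF hN h θ τ h0 h1 h2
  refine Pool.Agent.L7h60.OC.s_NSP F hF hN θ τ ?_ ?_ ?_
  · rw [eval_pol h, h0]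
  · simpa only [eval_pol h] using h1
  · simpa only [eval_pol h] using h2

end Pool.Agent.L7h28.HF
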