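import Pool.Agent.L7h28.HF.Top
import Pool.Agent.L7h64.HF.Ma2
import Pool.Agent.L7h79.HF.Exm
import Pool.Agent.L7h79.HF.Ex2
import Pool.Agent.L7h65.HF.Win
import Pool.Agent.L7h29.HF.Cn2

/-!
# Project HF: octics `a w ^ 8 + b (x, y) w ^ 4 + c (x, y)` have at most 10 ovals, up to the part SUB

Joint work of helpers 6, 21, 28, 29, 36, 53, 64, 65, 79, 87, 88.
-/

set_option autoImplicit false

namespace Pool.Agent.L7h28.HF

open Pool.Agent.L7h17.OC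

/-- at most 10 ovals, for the normal form itself, from the part `S_SUB` -/
theorem top10_of (hSUB : Pool.Agent.L7h64.HF.S_SUB) : Pool.Agent.L7h64.HF.S_MA2 :=
  Pool.Agent.L7h64.HF.s_MA2 (Pool.Agent.L7h79.HF.s_EXT Pool.Agent.L7h87.HF.s_LA Pool.Agent.L7h6.HF.s_LB
    Pool.Agent.L7h65.HF.s_LC)
    (Pool.Agent.L7h29.HF.s_CNT Pool.Agent.L7h21.HF.s_ZER Pool.Agent.L7h88.HF.s_DSC)
    (Pool.Agent.L7h87.HF.s_OPN Pool.Agent.L7h87.HF.s_LA) Pool.Agent.L7h53.HF.s_POL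
    Pool.Agent.L7h21.HF.s_ZER Pool.Agent.L7h88.HF.s_DSC
    (Pool.Agent.L7h79.HF.s_EX2 (Pool.Agent.L7h79.HF.s_EXM Pool.Agent.L7h87.HF.s_LA
      Pool.Agent.L7h6.HF.s_LB Pool.Agent.L7h65.HF.s_LC) Pool.Agent.L7h87.HF.s_LA hSUB)
    (Pool.Agent.L7h29.HF.s_CN2 Pool.Agent.L7h21.HF.s_ZER Pool.Agent.L7h88.HF.s_DSC)
    (Pool.Agent.L7h65.HF.s_WIN Pool.Agent.L7h88.HF.s_DSC)

/-- at most 10 ovals, in arbitrary real projective coordinates, from the part `S_SUB` -/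
theorem four10_of (hSUB : Pool.Agent.L7h64.HF.S_SUB)
    (F : MvPolynomial (Fin 3) ℝ) (hF : F.IsHomogeneous 8) (hN : Nonsing F)
    (M : Matrix (Fin 3) (Fin 3) ℝ) (hM : IsUnit M) (a : ℝ) (ha : a ≠ 0) (b c : ℕ → ℝ)
    (h : ∀ x y w : ℝ, MvPolynomial.eval (M.mulVec ![x, y, w]) F =
      a * w ^ 8 + (∑ i ∈ Finset.range 5, b i * x ^ i * y ^ (4 - i)) * w ^ 4 +
        ∑ i ∈ Finset.range 9, c i * x ^ i * y ^ (8 - i)) :
    ∀ k : ℕ, SplitsInto k F → k ≤ 10 := by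
  intro k hk
  obtain ⟨h1, h2, h3, h4⟩ := Pool.Agent.L7h77.OC.s_TRANS F M hM
  refine top10_of hSUB k (change M F) a b c (h1 hF) (h3 hN) ⟨ha, fun x y w => ?_⟩ (h4 k hk)
  rw [h2]
  exact h x y w

end Pool.Agent.L7h28.HF
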