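import Pool.Agent.L7h17.OC.Defs

/-!
# Project HF (MP_b7f146_ag): octics with a homology of order four

A nonsingular real plane octic which in some real projective coordinates has the equation
`a w ^ 8 + b (x, y) w ^ 4 + c (x, y) = 0` has at most 12 ovals.
-/

set_option autoImplicit false

noncomputable section

namespace Pool.Agent.L7h28.HF

open Polynomial Set

/-- the binary form with coefficients `h`, of degree `n`, on the circle -/
def frm (n : ℕ) (h : ℕ → ℝ) (θ : ℝ) : ℝ :=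
  ∑ i ∈ Finset.range (n + 1), h i * Real.cos θ ^ i * Real.sin θ ^ (n - i)

/-- `F = a w ^ 8 + b (x, y) w ^ 4 + c (x, y)` -/
def Q4 (F : MvPolynomial (Fin 3) ℝ) (a : ℝ) (b c : ℕ → ℝ) : Prop :=
  a ≠ 0 ∧ ∀ x y w : ℝ, MvPolynomial.eval ![x, y, w] F =
    a * w ^ 8 + (∑ i ∈ Finset.range 5, b i * x ^ i * y ^ (4 - i)) * w ^ 4 +
      ∑ i ∈ Finset.range 9, c i * x ^ i * y ^ (8 - i)

/-- the discriminant of the quadratic equation for `w ^ 4` -/
def dsc (a : ℝ) (b c : ℕ → ℝ) (θ : ℝ) : ℝ := frm 4 b θ ^ 2 - 4 * a * frm 8 c θ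

/-- the value of `F` at `(cos θ, sin θ, τ)` -/
def G (a : ℝ) (b c : ℕ → ℝ) (θ τ : ℝ) : ℝ := a * τ ^ 8 + frm 4 b θ * τ ^ 4 + frm 8 c θ

/-- A piece of the curve in polar coordinates: closed, its complement in the curve is closed. -/
structure Pc (a : ℝ) (b c : ℕ → ℝ) (K : Set (ℝ × ℝ)) : Prop where
  sub : ∀ p ∈ K, G a b c p.1 p.2 = 0
  closed : IsClosed K
  rest : IsClosed ({p : ℝ × ℝ | G a b c p.1 p.2 = 0} \ K)

/-- the curve is nonsingular at the real points (in polar coordinates) -/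
def NS (a : ℝ) (b c : ℕ → ℝ) : Prop := ∀ θ τ : ℝ, G a b c θ τ = 0 →
  HasDerivAt (fun x : ℝ => G a b c x τ) 0 θ → HasDerivAt (fun x : ℝ => G a b c θ x) 0 τ → False

/-- [ZER] 80 lines. A binary form of degree 8, not identically zero, has at most 8 zeros in a half
open half turn. Proof: let `P = ∑ h i X ^ i`. For `sin θ ≠ 0`, `frm 8 h θ = sin θ ^ 8 P (cos θ / sin θ)`;
`θ ↦ cos θ / sin θ` is injective on the points of `[α, α + π)` with `sin θ ≠ 0` (equal values give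
`sin (θ - θ') = 0`), so `P ≠ 0` and there are at most `natDegree P ≤ 8` such zeros; there is at most
one `θ` in the window with `sin θ = 0`, and if it is a zero then `h 8 = 0` and `natDegree P ≤ 7`. -/
def S_ZER : Prop := ∀ (h : ℕ → ℝ) (α : ℝ), (∃ θ, frm 8 h θ ≠ 0) → ∀ S : Finset ℝ,
  (∀ θ ∈ S, α ≤ θ ∧ θ < α + Real.pi ∧ frm 8 h θ = 0) → S.card ≤ 8

/-- [DSC] 50 lines. The discriminant is a binary form of degree 8: `d i = ∑ j, b j b (i - j) - 4 a c i`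
(`j ≤ 4`, `i - j ≤ 4`). Proof: write out, `Finset.sum_range_succ`, `ring`. All forms of even degree have
period `π`. -/
def S_DSC : Prop := (∀ (a : ℝ) (b c : ℕ → ℝ), ∃ d : ℕ → ℝ, ∀ θ, dsc a b c θ = frm 8 d θ) ∧
  (∀ (h : ℕ → ℝ) (θ : ℝ), frm 8 h (θ + Real.pi) = frm 8 h θ) ∧
  (∀ (h : ℕ → ℝ) (θ : ℝ), frm 4 h (θ + Real.pi) = frm 4 h θ)

/-- [LA] 80 lines. Continuation where the discriminant is positive. Proof: `y = τ0 ^ 4` is a root of
`a y ^ 2 + B y + C`, and `∂G/∂τ = 4 τ0 ^ 3 (2 a y + B)` with `(2 a y + B) ^ 2 = dsc > 0`, so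
`G (θ0, τ0 - η)` and `G (θ0, τ0 + η)` have different signs for all small `η > 0` (derivative not zero),
so also for `θ` near `θ0` (continuity), and the intermediate value theorem gives `τ`; the point is near
`(θ0, τ0)`, so not in the closed complement, so in `K`. -/
def S_LA : Prop := ∀ (a : ℝ) (b c : ℕ → ℝ) (K : Set (ℝ × ℝ)), a ≠ 0 → Pc a b c K →
  ∀ θ0 τ0 : ℝ, (θ0, τ0) ∈ K → 0 < τ0 → dsc a b c θ0 ≠ 0 → ∀ ε : ℝ, 0 < ε → ∃ δ : ℝ, 0 < δ ∧
    ∀ θ, |θ - θ0| < δ → ∃ τ, |τ - τ0| < ε ∧ (θ, τ) ∈ K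

/-- [LB] 100 lines. Continuation at a zero of the discriminant, to one side. Proof: `y0 = τ0 ^ 4`,
`dsc = 0`, so `y0 = - B / (2 a)` and `∂G/∂τ = 0`; by `NS` the derivative of `G` in `θ` at `(θ0, τ0)` is not
zero: it is `B' y0 + C' `, and `dsc' = 2 B B' - 4 a C' = - 4 a (B' y0 + C') ≠ 0`. So there are `θ ≠ θ0`
arbitrarily near `θ0` with `dsc θ > 0`. For such `θ` let `y = (- B + √ dsc) / (2 a)`, which tends to
`y0 > 0` for `θ → θ0`, and `τ = y ^ (1/4)` (`√ √ y`). `G (θ, τ) = 0`, the point is near `(θ0, τ0)`, so in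
`K`. (Shorter: at fixed `τ = τ0` and near `θ0` the function `θ ↦ G (θ, τ)` changes its sign at `θ0`;
so for `τ` near `τ0` there is `θ` near `θ0` with `G (θ, τ) = 0`, the point is in `K`; and `θ ≠ θ0` if
`τ ≠ τ0` because `G (θ0, τ) = a (τ ^ 4 - τ0 ^ 4) ^ 2`.) -/
def S_LB : Prop := ∀ (a : ℝ) (b c : ℕ → ℝ) (K : Set (ℝ × ℝ)), a ≠ 0 → NS a b c → Pc a b c K →
  ∀ θ0 τ0 : ℝ, (θ0, τ0) ∈ K → 0 < τ0 → dsc a b c θ0 = 0 → ∀ ε : ℝ, 0 < ε →
    ∃ θ τ : ℝ, θ ≠ θ0 ∧ |θ - θ0| < ε ∧ |τ - τ0| < ε ∧ (θ, τ) ∈ K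

/-- [LC] 80 lines. Continuation at a point with `τ = 0`. Proof: `∂G/∂τ (θ0, 0) = 0`, so by `NS` the
function `θ ↦ G (θ, 0) = C θ` has a nonzero derivative at `θ0`; it changes its sign; so for all small
`τ > 0` there is `θ` near `θ0` with `G (θ, τ) = 0`, the point is in `K`; `θ ≠ θ0` if `τ > 0` is small
enough, because `G (θ0, τ) = τ ^ 4 (a τ ^ 4 + B θ0)` is not zero for small `τ > 0`. -/
def S_LC : Prop := ∀ (a : ℝ) (b c : ℕ → ℝ) (K : Set (ℝ × ℝ)), a ≠ 0 → NS a b c → Pc a b c K →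
  ∀ θ0 : ℝ, (θ0, (0 : ℝ)) ∈ K → ∀ ε : ℝ, 0 < ε →
    ∃ θ τ : ℝ, θ ≠ θ0 ∧ |θ - θ0| < ε ∧ 0 < τ ∧ τ < ε ∧ (θ, τ) ∈ K

/-- a special point of the piece `K` over the angle `θ` -/
def Sp (a : ℝ) (b c : ℕ → ℝ) (K : Set (ℝ × ℝ)) (θ : ℝ) : Prop :=
  ((θ, (0 : ℝ)) ∈ K ∧ frm 8 c θ = 0) ∨ ∃ τ : ℝ, 0 < τ ∧ (θ, τ) ∈ K ∧ dsc a b c θ = 0

/-- [EXT] 120 lines; may assume `S_LA`, `S_LB`, `S_LC`. Proof: `L = K ∩ {α ≤ θ ≤ α + π, τ ≥ 0}` is
closed and bounded (`|a| τ ^ 8 ≤ |B| τ ^ 4 + |C|`, continuous functions on a compact interval), so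
compact. Over `θ = α` and `θ = α + π` there are no points (`dsc < 0`). Let `θ1` be the smallest and `θ2`
the largest first coordinate of `L`. If the point over `θ1` has `τ = 0` then it is special; if `τ > 0` and
`dsc ≠ 0` then by `S_LA` there are points of `L` with smaller first coordinate; so it is special. The
same for `θ2`. By `S_LB`, `S_LC` there is a point of `L` with first coordinate `≠ θ1`, so `θ1 < θ2`. -/
def S_EXT : Prop := ∀ (a : ℝ) (b c : ℕ → ℝ) (K : Set (ℝ × ℝ)) (α : ℝ), a ≠ 0 → NS a b c →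
  Pc a b c K → dsc a b c α < 0 → dsc a b c (α + Real.pi) < 0 →
  (∃ p ∈ K, α ≤ p.1 ∧ p.1 ≤ α + Real.pi ∧ 0 ≤ p.2) →
  ∃ θ1 θ2 : ℝ, α < θ1 ∧ θ1 < θ2 ∧ θ2 < α + Real.pi ∧ Sp a b c K θ1 ∧ Sp a b c K θ2

/-- [OPN] 80 lines; may assume `S_LA`. If the discriminant is nowhere negative, a piece without points
with `τ = 0` (for `τ ≥ 0`) lies over all angles. Proof: the set `T` of the `θ` with `(θ, τ) ∈ K` for some
`τ > 0` is open: at a point of `K` with `τ > 0` the discriminant is not zero, because otherwise its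
derivative at `θ` is not zero (as in `S_LB`: `NS`), so it takes negative values near `θ`; then `S_LA`.
It is closed: the `τ` are bounded over bounded intervals, a limit point is in `K`, with `τ ≥ 0`, and
`τ ≠ 0` by hypothesis. So `T = ℝ`. -/
def S_OPN : Prop := ∀ (a : ℝ) (b c : ℕ → ℝ) (K : Set (ℝ × ℝ)), a ≠ 0 → NS a b c → Pc a b c K →
  (∀ θ, 0 ≤ dsc a b c θ) → (∀ θ, (θ, (0 : ℝ)) ∉ K) → (∃ p ∈ K, 0 < p.2) →
  ∀ θ, ∃ τ : ℝ, 0 < τ ∧ (θ, τ) ∈ K

/-- the clauses of `SplitsInto` -/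
structure Spl (k : ℕ) (F : MvPolynomial (Fin 3) ℝ) (C : Fin k → Set (Fin 3 → ℝ)) : Prop where
  ne : ∀ i, (C i).Nonempty
  disj : ∀ i j, i ≠ j → Disjoint (C i) (C j)
  cov : (⋃ i, C i) = Pool.Agent.L7h17.OC.realCone F
  cone : ∀ i, ∀ v ∈ C i, ∀ c : ℝ, c ≠ 0 → c • v ∈ C i
  closed : ∀ i, ∃ K : Set (Fin 3 → ℝ), IsClosed K ∧ C i = K ∩ {v | v ≠ 0}

/-- the piece in polar coordinates -/
def pol (C : Set (Fin 3 → ℝ)) : Set (ℝ × ℝ) := {p | ![Real.cos p.1, Real.sin p.1, p.2] ∈ C}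

/-- [POL] 120 lines. The pieces in polar coordinates. Proof: `G (θ, τ) = F (cos θ, sin θ, τ)`
(`Q4`); preimages under the continuous map `p ↦ (cos p.1, sin p.1, p.2)`, which is never `0`; the rest is
the finite union of the other pieces. Periods: `(cos (θ + π), sin (θ + π), - τ) = - (cos θ, sin θ, τ)`.
A point of `C i` has `(x, y) ≠ 0` because `F (0, 0, w) = a w ^ 8`; divide by `± √(x² + y²)` so that the
third coordinate is `≥ 0`, and choose the angle in the given window of length `2 π`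
(`toIcoMod`, or `Complex.arg` and a multiple of `2 π`). -/
def S_POL : Prop := ∀ (k : ℕ) (F : MvPolynomial (Fin 3) ℝ) (C : Fin k → Set (Fin 3 → ℝ)) (a : ℝ)
  (b c : ℕ → ℝ), Q4 F a b c → Spl k F C →
  (∀ i, Pc a b c (pol (C i))) ∧ (∀ i j p, p ∈ pol (C i) → p ∈ pol (C j) → i = j) ∧
  (∀ i θ τ, (θ, τ) ∈ pol (C i) → (θ + Real.pi, -τ) ∈ pol (C i) ∧ (θ - Real.pi, -τ) ∈ pol (C i)) ∧
  (∀ i (α : ℝ), ∃ θ τ : ℝ, α ≤ θ ∧ θ < α + 2 * Real.pi ∧ 0 ≤ τ ∧ (θ, τ) ∈ pol (C i))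

/-- [NSG] 80 lines. Nonsingularity in polar coordinates. (The same as part NSP of project OC,
`Pool.Agent.L7h17.OC.S_NSP`: use its proof.) -/
def S_NSG : Prop := ∀ (F : MvPolynomial (Fin 3) ℝ) (a : ℝ) (b c : ℕ → ℝ), F.IsHomogeneous 8 →
  Pool.Agent.L7h17.OC.Nonsing F → Q4 F a b c → NS a b c

/-- [CNT] 100 lines, counting. `S_ZER` and `S_DSC` may be assumed. `P i` = the piece number `i` has a
special point over the window; the zeros of `frm 8 c` and of the discriminant in the window `(α, α + π)`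
are at most 8 each. (1) If `n` pairwise disjoint pieces `K i` each have two special angles in the window
then `n ≤ 8`: the map from the pairs (piece, one of its two special angles) to (type, angle), the type
being `τ = 0` or `τ > 0`, is injective: for `τ = 0` the point is `(θ, 0)`, for `τ > 0`, `dsc = 0` it is
`τ ^ 4 = - B θ / (2 a)`, the point is determined by `θ`. So `2 n ≤ 8 + 8`. (2) If moreover no piece has
points with `τ = 0` over the window then `2 n ≤ 8`. The forms are not identically zero: `dsc α < 0`, and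
`frm 8 c` by `NS` (if it is identically zero then the point `(0, 0)` is singular). -/
def S_CNT : Prop := ∀ (a : ℝ) (b c : ℕ → ℝ) (α : ℝ) (n : ℕ) (K : Fin n → Set (ℝ × ℝ)), a ≠ 0 →
  NS a b c → dsc a b c α < 0 → (∀ i, Pc a b c (K i)) → (∀ i j p, p ∈ K i → p ∈ K j → i = j) →
  (∀ i, ∃ θ1 θ2 : ℝ, α < θ1 ∧ θ1 < θ2 ∧ θ2 < α + Real.pi ∧ Sp a b c (K i) θ1 ∧ Sp a b c (K i) θ2) →
  n ≤ 8 ∧ ((∀ i θ, α < θ → θ < α + Real.pi → (θ, (0 : ℝ)) ∉ K i) → n ≤ 4)

/-- [MAIN] 120 lines; may assume `S_EXT`, `S_CNT`, `S_OPN`, `S_POL`, `S_NSG`, `S_ZER`, `S_DSC`.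
Proof: if `dsc α < 0` for some `α` (then also at `α + π`, `α + 2 π`): the pieces which have a point with
`τ ≥ 0` over `[α, α + π]` are at most 8 (`S_EXT`, `S_CNT` (1)); the others have a point with `τ ≥ 0` over
`[α + π, α + 2 π]` and no point with `τ = 0` there (it could be moved by `- π`), so they are at most 4
(`S_EXT`, `S_CNT` (2) for `α + π`). If `dsc ≥ 0` everywhere: the pieces with a point `(θ, 0)` have one
with `θ ∈ [0, π)` and `frm 8 c θ = 0`, at most 8 by `S_ZER`; the others contain a point `(0, τ)` with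
`τ > 0` (`S_OPN`), and `a τ ^ 8 + B τ ^ 4 + C = 0` has at most two positive solutions, so there are at
most 2. -/
def S_MAIN : Prop := ∀ (k : ℕ) (F : MvPolynomial (Fin 3) ℝ) (a : ℝ) (b c : ℕ → ℝ),
  F.IsHomogeneous 8 → Pool.Agent.L7h17.OC.Nonsing F → Q4 F a b c →
  Pool.Agent.L7h17.OC.SplitsInto k F → k ≤ 12

end Pool.Agent.L7h28.HF
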