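import Pool.Agent.L7h28.HF.Pre10
import Pool.Agent.L7h79.HF.Sub

/-!
# Project HF: octics `a w ^ 8 + b (x, y) w ^ 4 + c (x, y)` have at most 10 ovals

Joint work of helpers 6, 21, 28, 29, 53, 64, 65, 79, 87, 88.
-/

set_option autoImplicit false

namespace Pool.Agent.L7h28.HF

open Pool.Agent.L7h17.OC

/-- at most 10 ovals, for the normal form itself -/
theorem top10 (k : ℕ) (F : MvPolynomial (Fin 3) ℝ) (a : ℝ) (b c : ℕ → ℝ)
    (hF : F.IsHomogeneous 8) (hN : Nonsing F) (h4 : Q4 F a b c) (hk : SplitsInto k F) : k ≤ 10 :=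
  top10_of Pool.Agent.L7h79.HF.s_SUB k F a b c hF hN h4 hk

/-- at most 10 ovals, in arbitrary real projective coordinates -/
theorem four10 (F : MvPolynomial (Fin 3) ℝ) (hF : F.IsHomogeneous 8) (hN : Nonsing F)
    (M : Matrix (Fin 3) (Fin 3) ℝ) (hM : IsUnit M) (a : ℝ) (ha : a ≠ 0) (b c : ℕ → ℝ)
    (h : ∀ x y w : ℝ, MvPolynomial.eval (M.mulVec ![x, y, w]) F =
      a * w ^ 8 + (∑ i ∈ Finset.range 5, b i * x ^ i * y ^ (4 - i)) * w ^ 4 +
        ∑ i ∈ Finset.range 9, c i * x ^ i * y ^ (8 - i)) :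
    ∀ k : ℕ, SplitsInto k F → k ≤ 10 :=
  four10_of Pool.Agent.L7h79.HF.s_SUB F hF hN M hM a ha b c h

end Pool.Agent.L7h28.HF
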